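import Pool.Agent.Helper25.SH.Defs2

/-!
# MP_506470_co, finite clique number: Module G1 (degenerate links)
-/

namespace SetHom

variable {V : Type}

theorem p3f_of_finite {G : SimpleGraph V} [Infinite V] (hW : WSH G)
    (hfin : ∀ v, (G.neighborSet v).Finite) : P3F G Set.univ := by
  classical
  intro a _ b _ c _ hab hbc hac
  by_contra hn
  have hcn : ∀ x y : V, x ≠ y → ¬ G.Adj x y → ∃ z, G.Adj z x ∧ G.Adj z y := by
    intro x y hxy hnxy
    obtain ⟨φ, h⟩ := hW.pair hac hxy hn hnxy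
    rcases h with ⟨h1, h2⟩ | ⟨h1, h2⟩
    · refine ⟨φ b, ?_, ?_⟩
      · rw [← h1, φ.map_adj_iff]; exact hab.symm
      · rw [← h2, φ.map_adj_iff]; exact hbc
    · refine ⟨φ b, ?_, ?_⟩
      · rw [← h2, φ.map_adj_iff]; exact hbc
      · rw [← h1, φ.map_adj_iff]; exact hab.symm
  have hfinV : (Set.univ : Set V).Finite := by
    have h1 : (({a} : Set V) ∪ G.neighborSet a ∪ ⋃ x ∈ G.neighborSet a, G.neighborSet x).Finite :=
      ((Set.finite_singleton a).union (hfin a)).union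
        ((hfin a).biUnion (fun x _ => hfin x))
    refine h1.subset ?_
    intro v _
    by_cases hva : a = v
    · left; left; exact hva.symm
    by_cases hadj : G.Adj a v
    · left; right; exact hadj
    · right
      obtain ⟨z, hz1, hz2⟩ := hcn a v hva hadj
      simp only [Set.mem_iUnion]
      exact ⟨z, hz1.symm, hz2⟩
  exact Set.infinite_univ hfinV

theorem cmp_of_links {G : SimpleGraph V} (hW : WSH G) (hC : ∀ v, CMP G (G.neighborSet v))
    (hE : ∀ v, ∃ a b, G.Adj v a ∧ G.Adj v b ∧ G.Adj a b)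
    (hN : ∃ v a b, G.Adj v a ∧ G.Adj v b ∧ a ≠ b ∧ ¬ G.Adj a b) : CMP G Set.univ := by
  intro x _ y _ z _ hxy hyz hxz
  have hx_ne_y : x ≠ y := by
    rintro rfl
    exact hyz hxz
  have hyx : ¬ G.Adj y x := fun h => hxy h.symm
  have hzy : ¬ G.Adj z y := fun h => hyz h.symm
  obtain ⟨v0, a0, b0, h0a, h0b, h0ab, h0n⟩ := hN
  obtain ⟨u, hux, huy⟩ : ∃ u, G.Adj u x ∧ G.Adj u y := by
    obtain ⟨φ, h⟩ := hW.pair h0ab hx_ne_y h0n hxy
    rcases h with ⟨h1, h2⟩ | ⟨h1, h2⟩
    · refine ⟨φ v0, ?_, ?_⟩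
      · rw [← h1, φ.map_adj_iff]; exact h0a
      · rw [← h2, φ.map_adj_iff]; exact h0b
    · refine ⟨φ v0, ?_, ?_⟩
      · rw [← h2, φ.map_adj_iff]; exact h0b
      · rw [← h1, φ.map_adj_iff]; exact h0a
  have huz : ¬ G.Adj u z := by
    intro h
    exact hC u x hux y huy z h hxy hyz hxz
  have hzu : ¬ G.Adj z u := fun h => huz h.symm
  obtain ⟨r, hxr, hru, hrz⟩ : ∃ r, G.Adj x r ∧ G.Adj r u ∧ G.Adj r z := by
    obtain ⟨a, b, ha, hb, hab⟩ := hE x
    have key : ∀ a, G.Adj x a → G.Adj a u → G.Adj a z := by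
      intro a ha hau
      by_contra haz
      exact hC x a ha z hxz u hux.symm haz hzu hau
    by_cases hau : G.Adj a u
    · exact ⟨a, ha, hau, key a ha hau⟩
    · by_cases hbu : G.Adj b u
      · exact ⟨b, hb, hbu, key b hb hbu⟩
      · exfalso
        exact hC x a ha u hux.symm b hb hau (fun h => hbu h.symm) hab
  have hry : G.Adj r y := by
    by_contra hry
    exact hC u x hux y huy r hru.symm hxy (fun h => hry h.symm) hxr
  exact hC r x hxr.symm y hry z hrz hxy hyz hxz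

end SetHom
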