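import Pool.Agent.Helper25.SH.Defs2

/-!
# MP_506470_co, finite clique number: Module H1 (generic links)
-/

namespace SetHom

variable {V : Type}

/-- adding a dominating vertex to a clique -/
theorem h1_cone {G : SimpleGraph V} {n : ℕ} (hn : 1 ≤ n) (a : V) (A S : Set V)
    (hS : G.CliqueFreeOn S n) (ha : a ∈ S) (hA : ∀ x ∈ A, x ∈ S ∧ G.Adj a x) :
    G.CliqueFreeOn A (n - 1) := by
  classical
  intro t ht hcl
  have h1 : G.IsNClique n (insert a t) := by
    have := hcl.insert (a := a) (fun b hb => (hA b (ht hb)).2)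
    rwa [Nat.sub_add_cancel hn] at this
  refine hS ?_ h1
  intro x hx
  rw [Finset.coe_insert] at hx
  rcases hx with rfl | hx
  · exact ha
  · exact (hA x (ht hx)).1

/-- finite `K_n`-free sets embed in every link -/
theorem h1_embed {G : SimpleGraph V} {n : ℕ} (hn : 3 ≤ n) (v : V)
    (hL : EXT (n - 1) G (G.neighborSet v)) (S : Finset V) (hS : G.CliqueFreeOn (S : Set V) n) :
    ∃ f : V → V, Set.InjOn f S ∧ (∀ x ∈ S, G.Adj v (f x)) ∧
      ∀ x ∈ S, ∀ y ∈ S, (G.Adj (f x) (f y) ↔ G.Adj x y) := by
  classical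
  induction S using Finset.induction_on with
  | empty => exact ⟨id, by simp, by simp, by simp⟩
  | @insert a S ha ih =>
    have hS' : G.CliqueFreeOn (S : Set V) n := by
      intro t ht
      exact hS (fun x hx => by simp [Finset.coe_insert, ht hx] )
    obtain ⟨f, hinj, hv, hadj⟩ := ih hS'
    set A : Finset V := (S.filter (fun x => G.Adj a x)).image f with hA
    set B : Finset V := (S.filter (fun x => ¬ G.Adj a x)).image f with hB
    have hAmem : ∀ x ∈ S, G.Adj a x → f x ∈ A := fun x hx h =>
      Finset.mem_image_of_mem f (Finset.mem_filter.2 ⟨hx, h⟩)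
    have hBmem : ∀ x ∈ S, ¬ G.Adj a x → f x ∈ B := fun x hx h =>
      Finset.mem_image_of_mem f (Finset.mem_filter.2 ⟨hx, h⟩)
    have hA' : ∀ y ∈ A, ∃ x ∈ S, G.Adj a x ∧ f x = y := by
      intro y hy
      obtain ⟨x, hx, rfl⟩ := Finset.mem_image.1 hy
      exact ⟨x, (Finset.mem_filter.1 hx).1, (Finset.mem_filter.1 hx).2, rfl⟩
    have hB' : ∀ y ∈ B, ∃ x ∈ S, ¬ G.Adj a x ∧ f x = y := by
      intro y hy
      obtain ⟨x, hx, rfl⟩ := Finset.mem_image.1 hy
      exact ⟨x, (Finset.mem_filter.1 hx).1, (Finset.mem_filter.1 hx).2, rfl⟩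
    have hdisj : Disjoint A B := by
      rw [Finset.disjoint_left]
      intro y hyA hyB
      obtain ⟨x, hx, hax, rfl⟩ := hA' y hyA
      obtain ⟨x', hx', hax', he⟩ := hB' _ hyB
      have : x' = x := hinj hx' hx he
      exact hax' (this ▸ hax)
    have hfree : G.CliqueFreeOn (A : Set V) (n - 1) := by
      -- transport the clique back
      have h0 : G.CliqueFreeOn ((S.filter (fun x => G.Adj a x) : Finset V) : Set V) (n - 1) := by
        refine h1_cone (by omega) a _ _ hS (by simp) ?_
        intro x hx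
        have hx' := Finset.mem_filter.1 (Finset.mem_coe.1 hx)
        exact ⟨by simp [hx'.1], hx'.2⟩
      intro t ht hcl
      have hsub : ∀ y ∈ t, ∃ x ∈ S, G.Adj a x ∧ f x = y := fun y hy => hA' y (ht hy)
      set T : Finset V := (S.filter (fun x => G.Adj a x)).filter (fun x => f x ∈ t) with hT
      have hTim : T.image f = t := by
        ext y
        constructor
        · intro hy
          obtain ⟨x, hx, rfl⟩ := Finset.mem_image.1 hy
          exact (Finset.mem_filter.1 hx).2
        · intro hy
          obtain ⟨x, hx, hax, rfl⟩ := hsub y hy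
          exact Finset.mem_image_of_mem f
            (Finset.mem_filter.2 ⟨Finset.mem_filter.2 ⟨hx, hax⟩, hy⟩)
      have hTS : ∀ x ∈ T, x ∈ S := fun x hx =>
        (Finset.mem_filter.1 (Finset.mem_filter.1 hx).1).1
      have hTinj : Set.InjOn f T := hinj.mono (fun x hx => hTS x hx)
      have hcard : T.card = n - 1 := by
        rw [← hcl.card_eq, ← hTim, Finset.card_image_of_injOn hTinj]
      refine h0 (t := T) ?_ ⟨?_, hcard⟩
      · intro x hx
        exact Finset.mem_coe.2 (Finset.mem_filter.1 (Finset.mem_coe.1 hx)).1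
      · intro x hx y hy hxy
        have hx' : f x ∈ t := (Finset.mem_filter.1 (Finset.mem_coe.1 hx)).2
        have hy' : f y ∈ t := (Finset.mem_filter.1 (Finset.mem_coe.1 hy)).2
        have hne : f x ≠ f y := fun h => hxy (hTinj hx hy h)
        exact (hadj x (hTS x hx) y (hTS y hy)).1 (hcl.isClique hx' hy' hne)
    obtain ⟨c, hcv, hcB, hcA, hcB2⟩ := hL A B
      (by
        intro y hy
        obtain ⟨x, hx, _, rfl⟩ := hA' y hy
        exact hv x hx)
      (by
        intro y hy
        obtain ⟨x, hx, _, rfl⟩ := hB' y hy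
        exact hv x hx)
      hdisj hfree
    have hcS : ∀ x ∈ S, f x ≠ c := by
      intro x hx he
      by_cases hax : G.Adj a x
      · have := hcA (f x) (hAmem x hx hax)
        rw [he] at this
        exact G.loopless.irrefl c this
      · exact hcB (he ▸ hBmem x hx hax)
    have hcadj : ∀ x ∈ S, (G.Adj c (f x) ↔ G.Adj a x) := by
      intro x hx
      by_cases hax : G.Adj a x
      · exact ⟨fun _ => hax, fun _ => hcA (f x) (hAmem x hx hax)⟩
      · exact ⟨fun h => absurd h (hcB2 (f x) (hBmem x hx hax)), fun h => absurd h hax⟩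
    have hne : ∀ x ∈ S, x ≠ a := fun x hx h => ha (h ▸ hx)
    refine ⟨Function.update f a c, ?_, ?_, ?_⟩
    · intro x hx y hy hxy
      rw [Finset.coe_insert] at hx hy
      rcases hx with rfl | hx <;> rcases hy with rfl | hy
      · rfl
      · rw [Function.update_self, Function.update_of_ne (hne y hy)] at hxy
        exact absurd hxy.symm (hcS y hy)
      · rw [Function.update_self, Function.update_of_ne (hne x hx)] at hxy
        exact absurd hxy (hcS x hx)
      · rw [Function.update_of_ne (hne x hx), Function.update_of_ne (hne y hy)] at hxy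
        exact hinj hx hy hxy
    · intro x hx
      rcases Finset.mem_insert.1 hx with rfl | hx
      · rw [Function.update_self]; exact hcv
      · rw [Function.update_of_ne (hne x hx)]; exact hv x hx
    · intro x hx y hy
      rcases Finset.mem_insert.1 hx with hx1 | hx1 <;>
        rcases Finset.mem_insert.1 hy with hy1 | hy1
      · rw [hx1, hy1, Function.update_self]
        exact ⟨fun h => absurd h (G.loopless.irrefl _), fun h => absurd h (G.loopless.irrefl _)⟩
      · rw [hx1, Function.update_self, Function.update_of_ne (hne y hy1)]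
        exact hcadj y hy1
      · rw [hy1, Function.update_self, Function.update_of_ne (hne x hx1), G.adj_comm,
          hcadj x hx1, G.adj_comm]
      · rw [Function.update_of_ne (hne x hx1), Function.update_of_ne (hne y hy1)]
        exact hadj x hx1 y hy1

theorem h1_cn {G : SimpleGraph V} [Nonempty V] {n : ℕ} (hn : 3 ≤ n) (hW : WSH G)
    (hL : ∀ v, EXT (n - 1) G (G.neighborSet v)) (S : Finset V)
    (hS : G.CliqueFreeOn (S : Set V) n) : ∃ v, ∀ s ∈ S, G.Adj v s := by
  classical
  by_cases hd : NonDom G S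
  · obtain ⟨v⟩ := (inferInstance : Nonempty V)
    obtain ⟨f, hinj, hv, hadj⟩ := h1_embed hn v (hL v) S hS
    obtain ⟨φ, hφ⟩ := hW.map S hd f hinj hadj
    refine ⟨φ.symm v, ?_⟩
    intro s hs
    have h1 : φ s ∈ f '' (S : Set V) := by
      rw [← hφ]
      exact Set.mem_image_of_mem _ hs
    obtain ⟨x, hx, hxs⟩ := h1
    have h2 : G.Adj v (φ s) := by
      rw [← hxs]
      exact hv x hx
    have h3 := (φ.symm.map_adj_iff (v := v) (w := φ s)).2 h2
    rwa [RelIso.symm_apply_apply] at h3
  · unfold NonDom at hd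
    push Not at hd
    obtain ⟨u, huS, hu⟩ := hd
    obtain ⟨c, hcu, -, hcA, -⟩ := hL u (S.erase u) ∅
      (by
        intro x hx
        have hx' := Finset.mem_erase.1 (Finset.mem_coe.1 hx)
        exact hu x hx'.2 hx'.1)
      (by simp) (Finset.disjoint_empty_right _)
      (by
        refine h1_cone (by omega) u _ _ hS (Finset.mem_coe.2 huS) ?_
        intro x hx
        have hx' := Finset.mem_erase.1 (Finset.mem_coe.1 hx)
        exact ⟨Finset.mem_coe.2 hx'.2, hu x hx'.2 hx'.1⟩)
    refine ⟨c, ?_⟩
    intro s hs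
    by_cases hsu : s = u
    · rw [hsu]; exact SimpleGraph.Adj.symm hcu
    · exact hcA s (Finset.mem_erase.2 ⟨hsu, hs⟩)

-- Module H1
theorem gen_of {G : SimpleGraph V} [Nonempty V] {n : ℕ} (hn : 3 ≤ n) (hW : WSH G)
    (hK : G.CliqueFree (n + 1)) (hL : ∀ v, EXT (n - 1) G (G.neighborSet v)) : Gen n G := by
  classical
  refine ⟨hn, hW, hK, fun S hS => h1_cn hn hW hL S hS, ?_⟩
  intro D t F hD ht htf
  obtain ⟨v, hv⟩ := h1_cn hn hW hL D hD
  obtain ⟨c, hcv, hcB, hcA, hcB2⟩ := hL v t ((D \ t) ∪ ((F.filter (fun x => G.Adj v x)) \ t))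
    (fun x hx => hv x (ht hx))
    (by
      intro x hx
      rcases Finset.mem_union.1 (Finset.mem_coe.1 hx) with hx | hx
      · exact hv x (Finset.mem_sdiff.1 hx).1
      · exact (Finset.mem_filter.1 (Finset.mem_sdiff.1 hx).1).2)
    (by
      rw [Finset.disjoint_left]
      intro x hx hx'
      rcases Finset.mem_union.1 hx' with hx' | hx'
      · exact (Finset.mem_sdiff.1 hx').2 hx
      · exact (Finset.mem_sdiff.1 hx').2 hx)
    htf
  have hct : c ∉ t := fun h => G.loopless.irrefl c (hcA c h)
  refine ⟨c, ?_, ?_, ?_⟩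
  · intro hcF
    exact hcB (Finset.mem_union.2 (Or.inr (Finset.mem_sdiff.2
      ⟨Finset.mem_filter.2 ⟨hcF, hcv⟩, hct⟩)))
  · intro hcD
    exact hcB (Finset.mem_union.2 (Or.inl (Finset.mem_sdiff.2 ⟨hcD, hct⟩)))
  · intro x hx
    constructor
    · intro h
      by_contra hxt
      exact hcB2 x (Finset.mem_union.2 (Or.inl (Finset.mem_sdiff.2 ⟨hx, hxt⟩))) h
    · intro h
      exact hcA x h

end SetHom
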